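import Pool.Agent.Helper50.KP.Goals

/-!
Packet KP-CIO: the pairs of the wires of a circuit.
-/

set_option autoImplicit false

namespace Pool.Agent.Helper27.KP

open Pool.Agent.Helper50.KP

theorem gCIO : CIO := by
  intro m C x hC v hv e he
  replace he : e ∈ pairs m x (decide (v % 4 < 2)) (C (v / 4)) := he
  have hi : v / 4 < m := by omega
  cases hg : C (v / 4) with
  | inp l =>
    rw [hg] at he
    simp only [pairs] at he
    split_ifs at he with h
    · simp only [List.mem_singleton] at he
      subst he
      refine ⟨?_, ?_, ?_⟩ <;> simp only [ne_eq] <;> omega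
    · simp at he
  | nand j k =>
    rw [hg] at he
    obtain ⟨hj, hk⟩ := hC _ hi j k hg
    simp only [pairs] at he
    split_ifs at he with h
    · simp only [List.mem_cons, List.not_mem_nil, or_false] at he
      rcases he with he | he | he <;> subst he <;>
        (refine ⟨?_, ?_, ?_⟩ <;> simp only [ne_eq] <;> omega)
    · simp only [List.mem_singleton] at he
      subst he
      refine ⟨?_, ?_, ?_⟩ <;> simp only [ne_eq] <;> omega

end Pool.Agent.Helper27.KP
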